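import Mathlib
import Pool.Agent.H76.RE.Bound

set_option autoImplicit false

namespace Pool.Agent.Results.MP_df1a54_co.EvenUpperBound

/-- `G` is `k`-connected: it has at least `k + 1` vertices and deleting fewer than `k` vertices
always leaves a connected graph. (Every graph with a vertex is `0`-connected.) -/
def KConn {n : ℕ} (G : SimpleGraph (Fin n)) (k : ℕ) : Prop :=
  k + 1 ≤ n ∧ ∀ S : Finset (Fin n), S.card < k → (G.induce {v | v ∉ S}).Connected

/-- `r(G)`: the largest size of a set `F` of edges of `G` such that `G - F` is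
`(k-1)`-connected. -/
noncomputable def r {n : ℕ} (G : SimpleGraph (Fin n)) (k : ℕ) : ℕ :=
  sSup {m : ℕ | ∃ F : Finset (Sym2 (Fin n)), (F : Set (Sym2 (Fin n))) ⊆ G.edgeSet ∧
    KConn (G.deleteEdges (F : Set (Sym2 (Fin n)))) (k - 1) ∧ F.card = m}

/-- `f(n,k)`: the minimum of `r(G)` over all `k`-connected graphs `G` of order `n`. -/
noncomputable def f (n k : ℕ) : ℕ :=
  sInf {m : ℕ | ∃ G : SimpleGraph (Fin n), KConn G k ∧ r G k = m}

open Pool.Agent.H76.RE in
lemma kconn_iff {n : ℕ} (G : SimpleGraph (Fin n)) (k : ℕ) : KConn G k ↔ KC G k := by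
  unfold KConn KC
  rw [Fintype.card_fin]

open Pool.Agent.H76.RE in
/-- transport of the bound along a bijection -/
lemma f_le {n k b : ℕ} {V : Type} [Fintype V] [DecidableEq V] (e : V ≃ Fin n)
    (G : SimpleGraph V) (hG : KC G k)
    (hb : ∀ F : Finset (Sym2 V), (F : Set (Sym2 V)) ⊆ G.edgeSet →
      KC (G.deleteEdges (F : Set (Sym2 V))) (k - 1) → F.card ≤ b) : f n k ≤ b := by
  classical
  set H : SimpleGraph (Fin n) := G.comap e.symm with hH
  have hHa : ∀ a c, G.Adj a c ↔ H.Adj (e a) (e c) := by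
    intro a c
    rw [hH, SimpleGraph.comap_adj]
    simp
  have hHk : KConn H k := (kconn_iff H k).mpr (KC.congr e hHa hG)
  have h0 : f n k ≤ r H k := Nat.sInf_le ⟨H, hHk, rfl⟩
  refine h0.trans ?_
  refine csSup_le' ?_
  rintro m ⟨F, hF, hFk, rfl⟩
  have hinj : Function.Injective (Sym2.map e.symm) := Sym2.map.injective e.symm.injective
  rw [← Finset.card_image_of_injective F hinj]
  refine hb _ ?_ ?_
  · intro s hs
    obtain ⟨t, ht, rfl⟩ := Finset.mem_image.mp (Finset.mem_coe.mp hs)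
    have ht' := hF ht
    induction t using Sym2.ind with
    | _ a c => exact ht'
  · refine KC.congr e.symm ?_ ((kconn_iff _ _).mp hFk)
    intro a c
    rw [SimpleGraph.deleteEdges_adj, SimpleGraph.deleteEdges_adj]
    have h1 : s(e.symm a, e.symm c) ∈ ((F.image (Sym2.map e.symm) : Finset (Sym2 V)) : Set (Sym2 V))
        ↔ s(a, c) ∈ (F : Set (Sym2 (Fin n))) := by
      rw [Finset.mem_coe, Finset.mem_coe, Finset.mem_image]
      constructor
      · rintro ⟨t, ht, h⟩
        have : t = s(a, c) := hinj (by rw [h]; rfl)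
        rwa [← this]
      · intro h
        exact ⟨_, h, rfl⟩
    rw [h1]
    rfl

open Pool.Agent.H76.RE in
/-- the bound, for `k` even and `n ≥ 2k(k+1)` -/
lemma f_even (n k : ℕ) (hk : 2 ≤ k) (hke : Even k) (hn : 2 * k * (k + 1) ≤ n) :
    f n k ≤ n / (k + 1) * (k / 2) + n % (k + 1) := by
  classical
  set N := n / (k + 1) with hNdef
  have hN : 2 * k ≤ N := by
    rw [hNdef]
    exact (Nat.le_div_iff_mul_le (by omega)).mpr hn
  have : NeZero N := ⟨by omega⟩
  have hcard : Fintype.card (Vx N k (n % (k + 1))) = n := by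
    rw [card_Vx]
    have := Nat.div_add_mod n (k + 1)
    rw [← hNdef] at this
    have h2 : (k + 1) * N = N * k + N := by ring
    omega
  exact f_le (Fintype.equivFinOfCardEq hcard) (Gr N k (n % (k + 1))) (gr_kc hk hN)
    (fun F hF hT => edge_bound hk hke hN hF hT)

/-- For even `k ≥ 2` and `n ≥ 2k(k+1)`: `f(n,k) ≤ (k/2) ⌊n/(k+1)⌋ + (n mod (k+1))`, and therefore
`2 (k+1) f(n,k) ≤ k n + k (k+2)`. -/
theorem result (n k : ℕ) (hk : 2 ≤ k) (hke : Even k) (hn : 2 * k * (k + 1) ≤ n) :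
    f n k ≤ k / 2 * (n / (k + 1)) + n % (k + 1) ∧
    2 * (k + 1) * f n k ≤ k * n + k * (k + 2) := by
  have h := f_even n k hk hke hn
  refine ⟨by rwa [mul_comm (k / 2)], ?_⟩
  obtain ⟨c, hc⟩ := hke
  have h1 : k / 2 = c := by omega
  rw [h1] at h
  have h2 := Nat.div_add_mod n (k + 1)
  have h3 : n % (k + 1) ≤ k := Nat.le_of_lt_succ (Nat.mod_lt _ (by omega))
  set q := n / (k + 1)
  set j := n % (k + 1)
  calc 2 * (k + 1) * f n k ≤ 2 * (k + 1) * (q * c + j) := Nat.mul_le_mul_left _ h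
    _ = k * ((k + 1) * q + j) + j * (k + 2) := by rw [hc]; ring
    _ = k * n + j * (k + 2) := by rw [h2]
    _ ≤ k * n + k * (k + 2) := Nat.add_le_add_left (Nat.mul_le_mul_right _ h3) _

end Pool.Agent.Results.MP_df1a54_co.EvenUpperBound
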