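import Mathlib
import Pool.Agent.H76.RE.OddBound

set_option autoImplicit false

namespace Pool.Agent.Results.MP_df1a54_co.OddUpperBound

/-- `G` is `k`-connected: it has at least `k + 1` vertices and deleting fewer than `k` vertices
always leaves a connected graph. (Every graph with a vertex is `0`-connected.) -/
def KConn {n : ℕ} (G : SimpleGraph (Fin n)) (k : ℕ) : Prop :=
  k + 1 ≤ n ∧ ∀ S : Finset (Fin n), S.card < k → (G.induce {v | v ∉ S}).Connected

/-- `r(G)`: the largest size of a set `F` of edges of `G` such that `G - F` is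
`(k-1)`-connected. -/
noncomputable def r {n : ℕ} (G : SimpleGraph (Fin n)) (k : ℕ) : ℕ :=
  sSup {m : ℕ | ∃ F : Finset (Sym2 (Fin n)), (F : Set (Sym2 (Fin n))) ⊆ G.edgeSet ∧
    KConn (G.deleteEdges (F : Set (Sym2 (Fin n)))) (k - 1) ∧ F.card = m}

/-- `f(n,k)`: the minimum of `r(G)` over all `k`-connected graphs `G` of order `n`. -/
noncomputable def f (n k : ℕ) : ℕ :=
  sInf {m : ℕ | ∃ G : SimpleGraph (Fin n), KConn G k ∧ r G k = m}

open Pool.Agent.H76.RE in
lemma kconn_iff {n : ℕ} (G : SimpleGraph (Fin n)) (k : ℕ) : KConn G k ↔ KC G k := by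
  unfold KConn KC
  rw [Fintype.card_fin]

open Pool.Agent.H76.RE in
/-- transport of the bound along a bijection -/
lemma f_le {n k b : ℕ} {V : Type} [Fintype V] [DecidableEq V] (e : V ≃ Fin n)
    (G : SimpleGraph V) (hG : KC G k)
    (hb : ∀ F : Finset (Sym2 V), (F : Set (Sym2 V)) ⊆ G.edgeSet →
      KC (G.deleteEdges (F : Set (Sym2 V))) (k - 1) → F.card ≤ b) : f n k ≤ b := by
  classical
  set H : SimpleGraph (Fin n) := G.comap e.symm with hH
  have hHa : ∀ a c, G.Adj a c ↔ H.Adj (e a) (e c) := by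
    intro a c
    rw [hH, SimpleGraph.comap_adj]
    simp
  have hHk : KConn H k := (kconn_iff H k).mpr (KC.congr e hHa hG)
  have h0 : f n k ≤ r H k := Nat.sInf_le ⟨H, hHk, rfl⟩
  refine h0.trans ?_
  refine csSup_le' ?_
  rintro m ⟨F, hF, hFk, rfl⟩
  have hinj : Function.Injective (Sym2.map e.symm) := Sym2.map.injective e.symm.injective
  rw [← Finset.card_image_of_injective F hinj]
  refine hb _ ?_ ?_
  · intro s hs
    obtain ⟨t, ht, rfl⟩ := Finset.mem_image.mp (Finset.mem_coe.mp hs)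
    have ht' := hF ht
    induction t using Sym2.ind with
    | _ a c => exact ht'
  · refine KC.congr e.symm ?_ ((kconn_iff _ _).mp hFk)
    intro a c
    rw [SimpleGraph.deleteEdges_adj, SimpleGraph.deleteEdges_adj]
    have h1 : s(e.symm a, e.symm c) ∈ ((F.image (Sym2.map e.symm) : Finset (Sym2 V)) : Set (Sym2 V))
        ↔ s(a, c) ∈ (F : Set (Sym2 (Fin n))) := by
      rw [Finset.mem_coe, Finset.mem_coe, Finset.mem_image]
      constructor
      · rintro ⟨t, ht, h⟩
        have : t = s(a, c) := hinj (by rw [h]; rfl)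
        rwa [← this]
      · intro h
        exact ⟨_, h, rfl⟩
    rw [h1]
    rfl

/-- For odd `k = 2h + 1 ≥ 5`, with `B = 4h³ + 8h² + 4h + 1` and `W = 2h³ + 3h² + 3h + 1` (so that
`2 W < B`), and for all `n ≥ k (B + 1)`: `f(n,k) ≤ W ⌊(n-k)/B⌋ + ((n-k) mod B)`, and therefore
`B f(n,k) ≤ W n + B²`. -/
theorem result (n h B W : ℕ) (hh : 2 ≤ h) (hB : B = 4 * h ^ 3 + 8 * h ^ 2 + 4 * h + 1)
    (hW : W = 2 * h ^ 3 + 3 * h ^ 2 + 3 * h + 1) (hn : (2 * h + 1) * (B + 1) ≤ n) :
    2 * W < B ∧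
    f n (2 * h + 1) ≤ W * ((n - (2 * h + 1)) / B) + (n - (2 * h + 1)) % B ∧
    B * f n (2 * h + 1) ≤ W * n + B ^ 2 := by
  classical
  have hB0 : 0 < B := by rw [hB]; positivity
  have hnk : 2 * h + 1 ≤ n := le_trans (Nat.le_mul_of_pos_right _ (by omega)) hn
  have h2 : f n (2 * h + 1) ≤ W * ((n - (2 * h + 1)) / B) + (n - (2 * h + 1)) % B := by
    set N := (n - (2 * h + 1)) / B with hNdef
    set j := (n - (2 * h + 1)) % B with hjdef
    have hdm : B * N + j = n - (2 * h + 1) := Nat.div_add_mod _ _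
    have hN : 2 * h + 1 ≤ N := by
      rw [hNdef]
      refine (Nat.le_div_iff_mul_le hB0).mpr ?_
      have : (2 * h + 1) * (B + 1) = (2 * h + 1) * B + (2 * h + 1) := by ring
      omega
    have hcard : Fintype.card (Pool.Agent.H76.Odd.Vo N h j) = n := by
      rw [Pool.Agent.H76.Odd.card_Vo]
      have h3 : N * (h * (2 * h + 1)) * (2 * h + 2) + (N * (h * (2 * h)) +
          (N * (2 * h + 1) + (2 * h + 1 + j))) = B * N + j + (2 * h + 1) := by
        rw [hB]; ring
      rw [h3, hdm]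
      omega
    refine (f_le (Fintype.equivFinOfCardEq hcard) (Pool.Agent.H76.Odd.Go N h j)
      (Pool.Agent.H76.Odd.go_kc (by omega) hN)
      (fun F hF hT => Pool.Agent.H76.Odd.edge_bound (by omega) hF hT)).trans (le_of_eq ?_)
    rw [hW]; ring
  have h1 : 2 * W < B := by
    rw [hB, hW]
    nlinarith [Nat.mul_le_mul hh hh, Nat.mul_le_mul_right h hh]
  refine ⟨h1, h2, ?_⟩
  have hdm : B * ((n - (2 * h + 1)) / B) + (n - (2 * h + 1)) % B = n - (2 * h + 1) :=
    Nat.div_add_mod _ _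
  have hj : (n - (2 * h + 1)) % B < B := Nat.mod_lt _ hB0
  set N := (n - (2 * h + 1)) / B
  set j := (n - (2 * h + 1)) % B
  calc B * f n (2 * h + 1) ≤ B * (W * N + j) := Nat.mul_le_mul_left _ h2
    _ = W * (B * N) + B * j := by ring
    _ ≤ W * n + B * B := Nat.add_le_add (Nat.mul_le_mul_left _ (by omega))
        (Nat.mul_le_mul_left _ (by omega))
    _ = W * n + B ^ 2 := by ring

end Pool.Agent.Results.MP_df1a54_co.OddUpperBound
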